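import Pool.Agent.N245.DS.Geo

/-!
Project DS (helper245), LAT: the lattices which leave `f(x) + g(y)` invariant (helper712)
-/

set_option autoImplicit false

namespace Pool.Agent.N712.DS

open Set

/-- a function of two variables with periods `1` and `1` is bounded -/
lemma bdd {h : ℝ → ℝ → ℝ} (hc : Continuous fun p : ℝ × ℝ => h p.1 p.2)
    (h1 : ∀ s t, h (s + 1) t = h s t) (h2 : ∀ s t, h s (t + 1) = h s t) :
    ∃ M, ∀ s t, |h s t| ≤ M := by
  obtain ⟨M, hM⟩ := (isCompact_Icc (a := ((0 : ℝ), (0 : ℝ))) (b := (1, 1))).exists_bound_of_continuousOn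
    hc.continuousOn
  refine ⟨M, fun s t => ?_⟩
  have e1 : h s t = h (Int.fract s) t := by
    have hp : Function.Periodic (fun s => h s t) 1 := fun s => h1 s t
    have := hp.sub_int_mul_eq ⌊s⌋ (x := s)
    simp only [mul_one] at this
    rw [← this]
    rfl
  have e2 : h (Int.fract s) t = h (Int.fract s) (Int.fract t) := by
    have hp : Function.Periodic (fun t => h (Int.fract s) t) 1 := fun t => h2 _ t
    have := hp.sub_int_mul_eq ⌊t⌋ (x := t)
    simp only [mul_one] at this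
    rw [← this]
    rfl
  rw [e1, e2]
  have := hM (Int.fract s, Int.fract t) ⟨⟨Int.fract_nonneg _, Int.fract_nonneg _⟩,
    ⟨(Int.fract_lt_one _).le, (Int.fract_lt_one _).le⟩⟩
  simpa [Real.norm_eq_abs] using this

/-- a bounded function which is additively quasiperiodic is periodic -/
lemma quasi {f : ℝ → ℝ} {M p κ : ℝ} (hM : ∀ x, |f x| ≤ M) (h : ∀ x, f (x + p) = f x + κ) :
    κ = 0 := by
  have hn : ∀ n : ℕ, f (n * p) = f 0 + n * κ := by
    intro n
    induction n with
    | zero => simp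
    | succ n ih =>
      have e : ((n + 1 : ℕ) : ℝ) * p = n * p + p := by push_cast; ring
      rw [e, h, ih]
      push_cast
      ring
  by_contra hκ
  obtain ⟨n, hn'⟩ := exists_nat_gt (2 * M / |κ|)
  have h1 : 2 * M < n * |κ| := by
    rwa [div_lt_iff₀ (abs_pos.2 hκ)] at hn'
  have h2 : (n : ℝ) * κ = f (n * p) - f 0 := by rw [hn]; ring
  have h3 : (n : ℝ) * |κ| ≤ 2 * M := by
    calc (n : ℝ) * |κ| = |(n : ℝ) * κ| := by rw [abs_mul, Nat.abs_cast]
      _ = |f (n * p) - f 0| := by rw [h2]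
      _ ≤ |f (n * p)| + |f 0| := abs_sub _ _
      _ ≤ 2 * M := by
        have := hM (n * p)
        have := hM 0
        linarith
  linarith

/-- the periods of a continuous function -/
lemma per {f : ℝ → ℝ} (hf : Continuous f) : (∀ x, f x = f 0) ∨
    ∃ T : ℝ, (∀ (n : ℤ) (x : ℝ), f (x + n * T) = f x) ∧
      ∀ c, (∀ x, f (x + c) = f x) → ∃ n : ℤ, c = n * T := by
  let S : AddSubgroup ℝ :=
    { carrier := {c | ∀ x, f (x + c) = f x}
      add_mem' := by
        intro a b ha hb x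
        rw [← add_assoc, hb, ha]
      zero_mem' := by
        intro x
        rw [add_zero]
      neg_mem' := by
        intro a ha x
        have := ha (x + -a)
        rw [neg_add_cancel_right] at this
        exact this.symm }
  have hS : ∀ c, c ∈ S ↔ ∀ x, f (x + c) = f x := fun c => Iff.rfl
  rcases S.dense_or_cyclic with hd | ⟨a, ha⟩
  · left
    have : f = fun _ => f 0 := by
      refine Continuous.ext_on hd hf continuous_const ?_
      intro c hc
      have := (hS c).1 hc 0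
      rwa [zero_add] at this
    exact fun x => congrFun this x
  · right
    refine ⟨a, fun n => ?_, fun c hc => ?_⟩
    · refine (hS _).1 ?_
      rw [ha, AddSubgroup.mem_closure_singleton]
      exact ⟨n, by simp⟩
    · have := (hS c).2 hc
      rw [ha, AddSubgroup.mem_closure_singleton] at this
      obtain ⟨n, hn⟩ := this
      exact ⟨n, by rw [← hn]; simp⟩

lemma sgn {t : ℝ} (ht : t ≠ 0) : ∃ ε : ℤ, 0 < (ε : ℝ) * t := by
  rcases lt_or_gt_of_ne ht with h | h
  · exact ⟨-1, by push_cast; linarith⟩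
  · exact ⟨1, by push_cast; linarith⟩

/-- the case of one nonconstant function -/
lemma one {p q p' q' T : ℝ} {f : ℝ → ℝ} {m₁ m₂ : ℤ} (hD : p * q' - p' * q ≠ 0)
    (hT : ∀ (n : ℤ) (x : ℝ), f (x + n * T) = f x) (h1 : p = m₁ * T) (h2 : q = m₂ * T) :
    ∃ L α b : ℝ, 0 < L ∧ 0 < b ∧ (∃ m n : ℤ, L = m * p + n * q ∧ α = m * p' + n * q') ∧
      (∃ m n : ℤ, 0 = m * p + n * q ∧ b = m * p' + n * q') ∧ ∀ x, f (x + L) = f x := by
  have hb : (m₂ : ℝ) * p' - m₁ * q' ≠ 0 := by
    intro h0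
    apply hD
    rw [h1, h2]
    linear_combination (-T) * h0
  obtain ⟨ε, hε⟩ := sgn hb
  have hL : ∃ m n : ℤ, 0 < (m : ℝ) * p + n * q := by
    by_cases hp : p = 0
    · have hq : q ≠ 0 := by
        intro hq
        apply hD
        rw [hp, hq]
        ring
      obtain ⟨δ, hδ⟩ := sgn hq
      exact ⟨0, δ, by push_cast; linarith⟩
    · obtain ⟨δ, hδ⟩ := sgn hp
      exact ⟨δ, 0, by push_cast; linarith⟩
  obtain ⟨m, n, hmn⟩ := hL
  refine ⟨m * p + n * q, m * p' + n * q', ε * (m₂ * p' - m₁ * q'), hmn, hε, ⟨m, n, rfl, rfl⟩,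
    ⟨ε * m₂, -(ε * m₁), ?_, ?_⟩, fun x => ?_⟩
  · rw [h1, h2]
    push_cast
    ring
  · push_cast
    ring
  · have := hT (m * m₁ + n * m₂) x
    rw [h1, h2]
    rw [← this]
    congr 1
    push_cast
    ring

/-- leaf LAT -/
theorem lattice : Pool.Agent.N245.DS.S_LAT := by
  intro v w f g hD hf hg hv hw
  obtain ⟨p, hp⟩ : ∃ p, p = v.re := ⟨_, rfl⟩
  obtain ⟨p', hp'⟩ : ∃ p', p' = v.im := ⟨_, rfl⟩
  obtain ⟨q, hq⟩ : ∃ q, q = w.re := ⟨_, rfl⟩
  obtain ⟨q', hq'⟩ : ∃ q', q' = w.im := ⟨_, rfl⟩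
  have tocplx : ∀ (m n : ℤ) (z : ℂ), z.re = m * p + n * q → z.im = m * p' + n * q' →
      z = m * v + n * w := by
    intro m n z h1 h2
    apply Complex.ext
    · rw [h1, hp, hq]
      simp
    · rw [h2, hp', hq']
      simp
  rw [← hp, ← hp', ← hq, ← hq'] at hD
  rw [← hp, ← hp'] at hv
  rw [← hq, ← hq'] at hw
  -- the function is bounded
  obtain ⟨M, hM⟩ : ∃ M, ∀ s t : ℝ, |f (s * p + t * q) + g (s * p' + t * q')| ≤ M := by
    refine bdd (h := fun s t => f (s * p + t * q) + g (s * p' + t * q')) ?_ ?_ ?_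
    · fun_prop
    · intro s t
      have := hv (s * p + t * q) (s * p' + t * q')
      rw [← this]
      congr 2 <;> ring
    · intro s t
      have := hw (s * p + t * q) (s * p' + t * q')
      rw [← this]
      congr 2 <;> ring
  have hM' : ∀ x y, |f x + g y| ≤ M := by
    intro x y
    have := hM ((x * q' - y * q) / (p * q' - p' * q)) ((p * y - p' * x) / (p * q' - p' * q))
    have e1 : (x * q' - y * q) / (p * q' - p' * q) * p + (p * y - p' * x) / (p * q' - p' * q) * q
        = x := by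
      rw [div_mul_eq_mul_div, div_mul_eq_mul_div, ← add_div, div_eq_iff hD]
      ring
    have e2 : (x * q' - y * q) / (p * q' - p' * q) * p' + (p * y - p' * x) / (p * q' - p' * q) * q'
        = y := by
      rw [div_mul_eq_mul_div, div_mul_eq_mul_div, ← add_div, div_eq_iff hD]
      ring
    rwa [e1, e2] at this
  have hfb : ∀ x, |f x| ≤ M + |g 0| := by
    intro x
    calc |f x| = |(f x + g 0) - g 0| := by rw [add_sub_cancel_right]
      _ ≤ |f x + g 0| + |g 0| := abs_sub _ _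
      _ ≤ M + |g 0| := by linarith [hM' x 0]
  have key : ∀ c c' : ℝ, (∀ x y, f (x + c) + g (y + c') = f x + g y) →
      (∀ x, f (x + c) = f x) ∧ ∀ y, g (y + c') = g y := by
    intro c c' h
    have h0 : g 0 - g (0 + c') = 0 := by
      refine quasi hfb (p := c) fun x => ?_
      have := h x 0
      linarith
    have h1 : ∀ x, f (x + c) = f x := by
      intro x
      have := h x 0
      linarith
    refine ⟨h1, fun y => ?_⟩
    have := h 0 y
    rw [h1] at this
    linarith
  obtain ⟨fv, gv⟩ := key p p' hv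
  obtain ⟨fw, gw⟩ := key q q' hw
  rcases per hf with hfc | ⟨T, hT, hT'⟩
  · rcases per hg with hgc | ⟨U, hU, hU'⟩
    · exact Or.inr (Or.inr (Or.inr ⟨_, _, hfc, hgc⟩))
    · obtain ⟨n₁, hn₁⟩ := hU' p' gv
      obtain ⟨n₂, hn₂⟩ := hU' q' gw
      obtain ⟨L, α, b, hL, hb, ⟨m, n, h1, h2⟩, ⟨k, l, h3, h4⟩, h5⟩ :=
        one (p := p') (q := q') (p' := p) (q' := q) (f := g)
          (by intro h; apply hD; linarith) hU hn₁ hn₂
      refine Or.inr (Or.inr (Or.inl ⟨_, hfc, L, α, b, hL, hb, ⟨m, n, tocplx m n _ ?_ ?_⟩,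
        ⟨k, l, tocplx k l _ ?_ ?_⟩, h5⟩))
      · simpa using h2
      · simpa using h1
      · simpa using h4
      · simpa using h3
  · rcases per hg with hgc | ⟨U, hU, hU'⟩
    · obtain ⟨n₁, hn₁⟩ := hT' p fv
      obtain ⟨n₂, hn₂⟩ := hT' q fw
      obtain ⟨L, α, b, hL, hb, ⟨m, n, h1, h2⟩, ⟨k, l, h3, h4⟩, h5⟩ :=
        one (p := p) (q := q) (p' := p') (q' := q') (f := f) hD hT hn₁ hn₂
      refine Or.inr (Or.inl ⟨_, hgc, L, α, b, hL, hb, ⟨m, n, tocplx m n _ ?_ ?_⟩,
        ⟨k, l, tocplx k l _ ?_ ?_⟩, h5⟩)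
      · simpa using h1
      · simpa using h2
      · simpa using h3
      · simpa using h4
    · obtain ⟨m₁, hm₁⟩ := hT' p fv
      obtain ⟨m₂, hm₂⟩ := hT' q fw
      obtain ⟨n₁, hn₁⟩ := hU' p' gv
      obtain ⟨n₂, hn₂⟩ := hU' q' gw
      have e : p * q' - p' * q = ((m₁ : ℝ) * n₂ - m₂ * n₁) * T * U := by
        rw [hm₁, hm₂, hn₁, hn₂]
        ring
      have hDT : ((m₁ : ℝ) * n₂ - m₂ * n₁) * T ≠ 0 := by
        intro h
        apply hD
        rw [e, h, zero_mul]
      have hDU : ((m₁ : ℝ) * n₂ - m₂ * n₁) * U ≠ 0 := by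
        intro h
        apply hD
        rw [e, mul_right_comm, h, zero_mul]
      obtain ⟨ε, hε⟩ := sgn hDT
      obtain ⟨δ, hδ⟩ := sgn hDU
      refine Or.inl ⟨_, _, hε, hδ, ⟨ε * n₂, -(ε * n₁), tocplx _ _ _ ?_ ?_⟩,
        ⟨-(δ * m₂), δ * m₁, tocplx _ _ _ ?_ ?_⟩, fun x => ?_, fun y => ?_⟩
      · rw [Complex.ofReal_re, hm₁, hm₂]
        push_cast
        ring
      · rw [Complex.ofReal_im, hn₁, hn₂]
        push_cast
        ring
      · rw [hm₁, hm₂]
        simp
        ring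
      · rw [hn₁, hn₂]
        simp
        ring
      · have := hT (ε * (m₁ * n₂ - m₂ * n₁)) x
        rw [← this]
        congr 1
        push_cast
        ring
      · have := hU (δ * (m₁ * n₂ - m₂ * n₁)) y
        rw [← this]
        congr 1
        push_cast
        ring

end Pool.Agent.N712.DS
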